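import Pool.Agent.QUD.StmtsRB

/-!
# Squad QUD, row FPB (helper74): facing sides in the language of vertices
-/

set_option autoImplicit false

namespace Pool.Agent.QUD.H74

open MeasureTheory Complex Filter Topology Pool.Agent.H16Iso Pool.Agent.H62T
open Pool.Agent.AEU Pool.Agent.XQ Pool.Agent.QUD
open Pool.Agent.H1Gen (det CCW poly)

/-- a point of a line with unit normal `u` is determined by its position along the line -/
theorem on_line {u x v : ℂ} (hu : u.re ^ 2 + u.im ^ 2 = 1) (h : ip u x = ip u v) :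
    x = v + ((ip (I * u) (x - v) : ℝ) : ℂ) * (I * u) := by
  simp only [ip, Complex.sub_re, Complex.sub_im, Complex.mul_re, Complex.mul_im, Complex.I_re,
    Complex.I_im] at h ⊢
  apply Complex.ext
  · simp
    linear_combination (-(x.re - v.re)) * hu + u.re * h
  · simp
    linear_combination (-(x.im - v.im)) * hu + u.im * h

theorem ip_add_mul (w v u : ℂ) (s : ℝ) : ip w (v + (s : ℂ) * u) = ip w v + s * ip w u := by
  simp only [ip, Complex.add_re, Complex.add_im, Complex.mul_re, Complex.mul_im,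
    Complex.ofReal_re, Complex.ofReal_im]
  ring

theorem ip_I (w u : ℂ) : ip w (I * u) = -dt w u := by
  simp only [ip, dt, Complex.mul_re, Complex.mul_im, Complex.I_re, Complex.I_im]
  ring

theorem dt_swap (w u : ℂ) : dt w u = -dt u w := by
  simp only [dt]
  ring

theorem ip_neg_left (w u : ℂ) : ip (-w) u = -ip w u := by
  simp only [ip, Complex.neg_re, Complex.neg_im]
  ring

theorem unit_sq {u : ℂ} (h : ‖u‖ = 1) : u.re ^ 2 + u.im ^ 2 = 1 := by
  have := Complex.sq_norm u
  rw [h, Complex.normSq_apply] at this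
  nlinarith

theorem face_symm {X : Finset HP} {L : ℝ} {u u' : HP} (hX : Pg X) (h : FacePair X L u u') :
    FacePair X L u' u := by
  obtain ⟨x, hx, hxu, hx'⟩ := h.seg
  have hu := unit_sq (hX.unit u h.mem)
  refine ⟨h.mem', h.mem, by rw [h.opp, neg_neg], by rw [← h.dist]; ring, ?_⟩
  refine ⟨x - ((L / 2 : ℝ) : ℂ) * u.1, hx', ?_, ?_⟩
  · have hd := h.dist
    rw [h.opp, ip_neg_left]
    have : ip u.1 (x - ((L / 2 : ℝ) : ℂ) * u.1) = ip u.1 x - L / 2 := by
      simp only [ip, Complex.sub_re, Complex.sub_im, Complex.mul_re, Complex.mul_im,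
        Complex.ofReal_re, Complex.ofReal_im]
      linear_combination (-(L / 2)) * hu
    rw [this, hxu]
    linarith
  · rw [h.opp]
    have : x - ((L / 2 : ℝ) : ℂ) * u.1 - ((L / 2 : ℝ) : ℂ) * -u.1 = x := by ring
    rw [this]
    exact hx

/-- the case in which the facing sides are `b` and `d` -/
theorem core (prl : PrlStmt) (vtx : VtxStmt) (snf : SnfStmt) (a b c d : HP) (L : ℝ)
    (hc : Cyc a b c d) (hL : 0 < L) (hB : Below {a, b, c, d} L)
    (hF : FacePair {a, b, c, d} L b d) :
    ∃ B δ ε : ℝ, 0 < B ∧ 0 < B + ε - δ ∧ 0 < B + ε ∧ 0 < B - δ ∧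
      Mot (vv a b c d) (sq (L / 2) B δ ε) := by
  obtain ⟨hccw, -, -, e1, -, e3, -⟩ := vtx a b c d hc
  have hbu := unit_sq (hc.pg.unit b (by simp))
  have v0 : vv a b c d 0 = vx d a := rfl
  have v1 : vv a b c d 1 = vx a b := rfl
  have v2 : vv a b c d 2 = vx b c := rfl
  have v3 : vv a b c d 3 = vx c d := rfl
  have hopp : d.1 = -b.1 := hF.opp
  have hdist : b.2 + d.2 = L / 2 := hF.dist
  set t1 := en (vv a b c d) 1 with ht1
  set t3 := en (vv a b c d) 3 with ht3
  have hpar : det (vv a b c d 2 - vv a b c d 1) (vv a b c d 3 - vv a b c d 0) = 0 := by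
    rw [v0, v1, v2, v3, e1]
    have : vx c d - vx d a = (t3 : ℂ) * (I * b.1) := by
      have h3 := e3
      rw [hopp] at h3
      linear_combination -h3
    rw [this]
    simp only [det, Complex.mul_re, Complex.mul_im, Complex.ofReal_re, Complex.ofReal_im,
      Complex.I_re, Complex.I_im]
    ring
  obtain ⟨h, B, δ, ε, hh, hδ, hBn, hBe, h0, hB0, hpos, hmot⟩ := snf _ hccw hpar
  rw [v1, v2] at hBn
  rw [v0, v1, v2] at hh hδ
  rw [v1, v2, v3] at hBe
  have hBt : t1 = B := by
    rw [hBn, ht1, en]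
    rfl
  rw [← hBn] at hh hδ hBe
  have hbI : vx b c - vx a b = (B : ℂ) * (I * b.1) := by rw [e1, hBt]
  -- the incidences
  have ia1 : ip a.1 (vx a b) = a.2 := hc.vab.on₁
  have ib1 : ip b.1 (vx a b) = b.2 := hc.vab.on₂
  have ic2 : ip c.1 (vx b c) = c.2 := hc.vbc.on₂
  have ic3 : ip c.1 (vx c d) = c.2 := hc.vcd.on₁
  have id3 : ip d.1 (vx c d) = d.2 := hc.vcd.on₂
  have id0 : ip d.1 (vx d a) = d.2 := hc.vda.on₁
  have ia0 : ip a.1 (vx d a) = a.2 := hc.vda.on₂
  have ib0 : ip b.1 (vx d a) = -d.2 := by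
    have := id0
    rw [hopp, ip_neg_left] at this
    linarith
  have ib3 : ip b.1 (vx c d) = -d.2 := by
    have := id3
    rw [hopp, ip_neg_left] at this
    linarith
  have hhL : h = L / 2 := by
    rw [hh, hbI]
    have : det ((B : ℂ) * (I * b.1)) (vx d a - vx a b) =
        B * (ip b.1 (vx a b) - ip b.1 (vx d a)) := by
      simp only [det, ip, Complex.mul_re, Complex.mul_im, Complex.ofReal_re, Complex.ofReal_im,
        Complex.I_re, Complex.I_im, Complex.sub_re, Complex.sub_im]
      ring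
    rw [this, ib0, ib1, mul_div_cancel_left₀ _ hB0.ne']
    linarith
  have hδ' : δ = ip (I * b.1) (vx d a - vx a b) := by
    rw [hδ, hbI]
    have : sp ((B : ℂ) * (I * b.1)) (vx d a - vx a b) = B * ip (I * b.1) (vx d a - vx a b) := by
      simp only [sp, ip, Complex.mul_re, Complex.mul_im, Complex.ofReal_re, Complex.ofReal_im,
        Complex.I_re, Complex.I_im, Complex.sub_re, Complex.sub_im]
      ring
    rw [this, mul_div_cancel_left₀ _ hB0.ne']
  have hBe' : B + ε = ip (I * b.1) (vx c d - vx a b) := by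
    rw [hBe, hbI]
    have : sp ((B : ℂ) * (I * b.1)) (vx c d - vx a b) = B * ip (I * b.1) (vx c d - vx a b) := by
      simp only [sp, ip, Complex.mul_re, Complex.mul_im, Complex.ofReal_re, Complex.ofReal_im,
        Complex.I_re, Complex.I_im, Complex.sub_re, Complex.sub_im]
      ring
    rw [this, mul_div_cancel_left₀ _ hB0.ne']
  have hB' : B = ip (I * b.1) (vx b c - vx a b) := by
    rw [hbI]
    simp only [ip, Complex.mul_re, Complex.mul_im, Complex.ofReal_re, Complex.ofReal_im,
        Complex.I_re, Complex.I_im]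
    linear_combination (-B) * hbu
  have hab := hc.ab
  have hbc := hc.bc
  -- bounds for the positions
  have bounds : ∀ x : ℂ, x ∈ Cl {a, b, c, d} → ip b.1 x = b.2 →
      x - ((L / 2 : ℝ) : ℂ) * b.1 ∈ Cl {a, b, c, d} →
      0 ≤ ip (I * b.1) (x - vx a b) ∧ ip (I * b.1) (x - vx a b) ≤ B ∧
      δ ≤ ip (I * b.1) (x - vx a b) ∧ ip (I * b.1) (x - vx a b) ≤ B + ε := by
    intro x hx hxb hx'
    have hxa : ip a.1 x ≤ a.2 := hx a (by simp)
    have hxc : ip c.1 x ≤ c.2 := hx c (by simp)
    have hxa' : ip a.1 (x - ((L / 2 : ℝ) : ℂ) * b.1) ≤ a.2 := hx' a (by simp)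
    have hxc' : ip c.1 (x - ((L / 2 : ℝ) : ℂ) * b.1) ≤ c.2 := hx' c (by simp)
    have hb' : ip b.1 (x - ((L / 2 : ℝ) : ℂ) * b.1) = -d.2 := by
      have : ip b.1 (x - ((L / 2 : ℝ) : ℂ) * b.1) = ip b.1 x - L / 2 := by
        simp only [ip, Complex.sub_re, Complex.sub_im, Complex.mul_re, Complex.mul_im,
          Complex.ofReal_re, Complex.ofReal_im]
        linear_combination (-(L / 2)) * hbu
      rw [this, hxb]
      linarith
    set s := ip (I * b.1) (x - vx a b) with hs
    have p1 := on_line (x := x) (v := vx a b) hbu (by rw [hxb, ib1])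
    have p2 := on_line (x := x) (v := vx b c) hbu (by rw [hxb, hc.vbc.on₁])
    have p3 := on_line (x := x - ((L / 2 : ℝ) : ℂ) * b.1) (v := vx d a) hbu (by rw [hb', ib0])
    have p4 := on_line (x := x - ((L / 2 : ℝ) : ℂ) * b.1) (v := vx c d) hbu (by rw [hb', ib3])
    have q2 : ip (I * b.1) (x - vx b c) = s - B := by
      rw [hs, hB']
      simp only [ip, Complex.sub_re, Complex.sub_im]
      ring
    have q3 : ip (I * b.1) (x - ((L / 2 : ℝ) : ℂ) * b.1 - vx d a) = s - δ := by
      rw [hs, hδ']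
      simp only [ip, Complex.sub_re, Complex.sub_im, Complex.mul_re, Complex.mul_im,
          Complex.ofReal_re, Complex.ofReal_im, Complex.I_re, Complex.I_im]
      ring
    have q4 : ip (I * b.1) (x - ((L / 2 : ℝ) : ℂ) * b.1 - vx c d) = s - (B + ε) := by
      rw [hs, hBe']
      simp only [ip, Complex.sub_re, Complex.sub_im, Complex.mul_re, Complex.mul_im,
          Complex.ofReal_re, Complex.ofReal_im, Complex.I_re, Complex.I_im]
      ring
    rw [← hs] at p1
    rw [q2] at p2
    rw [q3] at p3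
    rw [q4] at p4
    rw [p1, ip_add_mul, ia1, ip_I] at hxa
    rw [p2, ip_add_mul, ic2, ip_I, dt_swap c.1 b.1] at hxc
    rw [p3, ip_add_mul, ia0, ip_I] at hxa'
    rw [p4, ip_add_mul, ic3, ip_I, dt_swap c.1 b.1] at hxc'
    refine ⟨?_, ?_, ?_, ?_⟩ <;> by_contra hcon <;> push Not at hcon
    · nlinarith [mul_pos_of_neg_of_neg hcon (neg_lt_zero.mpr hab)]
    · nlinarith [mul_pos (sub_pos.mpr hcon) hbc]
    · nlinarith [mul_pos (sub_pos.mpr hcon) hab]
    · nlinarith [mul_pos (sub_pos.mpr hcon) hbc]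
  obtain ⟨x, y, hxy, hx, hy, hxb, hyb, hx', hy'⟩ := (prl _ L hc.pg hL hB).2 b d hF
  obtain ⟨x1, x2, x3, x4⟩ := bounds x hx hxb hx'
  obtain ⟨y1, y2, y3, y4⟩ := bounds y hy hyb hy'
  have hne : ip (I * b.1) (x - vx a b) ≠ ip (I * b.1) (y - vx a b) := by
    intro he
    apply hxy
    rw [on_line (x := x) (v := vx a b) hbu (by rw [hxb, ib1]),
      on_line (x := y) (v := vx a b) hbu (by rw [hyb, ib1]), he]
  refine ⟨B, δ, ε, hB0, hpos, ?_, ?_, by rw [← hhL]; exact hmot⟩
  · rcases lt_or_gt_of_ne hne with h | h <;> linarith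
  · rcases lt_or_gt_of_ne hne with h | h <;> linarith

theorem cyc_rot {a b c d : HP} (h : Cyc a b c d) : Cyc b c d a := by
  have hs : ({b, c, d, a} : Finset HP) = {a, b, c, d} := by
    ext x
    simp only [Finset.mem_insert, Finset.mem_singleton]
    tauto
  obtain ⟨n1, n2, n3, n4, n5, n6⟩ := h.ne
  refine ⟨⟨n4, n5, n1.symm, n6, n2.symm, n3.symm⟩, ?_, h.bc, h.cd, h.da, h.ab, ?_, ?_, ?_, ?_⟩
  · rw [hs]; exact h.pg
  · rw [hs]; exact h.vbc
  · rw [hs]; exact h.vcd
  · rw [hs]; exact h.vda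
  · rw [hs]; exact h.vab

theorem fpb (prl : PrlStmt) (vtx : VtxStmt) (_rot : RotStmt) (snf : SnfStmt) : FpbStmt := by
  intro a b c d L hc hL hB ⟨u, u', hF⟩
  have hs : ({b, c, d, a} : Finset HP) = {a, b, c, d} := by
    ext x
    simp only [Finset.mem_insert, Finset.mem_singleton]
    tauto
  have hBD : FacePair {a, b, c, d} L b d → FP (vv a b c d) (L / 2) := by
    intro h
    obtain ⟨B, δ, ε, h1, h2, h3, h4, hm⟩ := core prl vtx snf a b c d L hc hL hB h
    refine ⟨0, B, δ, ε, by positivity, h1, h2, h3, h4, ?_⟩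
    have : (fun k : Fin 4 => vv a b c d (k + 0)) = vv a b c d := by
      funext k
      rw [add_zero]
    rw [this]
    exact hm
  have hCA : FacePair {a, b, c, d} L c a → FP (vv a b c d) (L / 2) := by
    intro h
    obtain ⟨B, δ, ε, h1, h2, h3, h4, hm⟩ := core prl vtx snf b c d a L (cyc_rot hc) hL
      (by rw [hs]; exact hB) (by rw [hs]; exact h)
    refine ⟨1, B, δ, ε, by positivity, h1, h2, h3, h4, ?_⟩
    have : (fun k : Fin 4 => vv a b c d (k + 1)) = vv b c d a := by
      funext k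
      fin_cases k <;> rfl
    rw [this]
    exact hm
  have hsym := fun {x y : HP} => face_symm (X := {a, b, c, d}) (L := L) (u := x) (u' := y) hc.pg
  have hz : ∀ w : ℂ, dt w (-w) = 0 := fun w => by
    simp only [dt, Complex.neg_re, Complex.neg_im]
    ring
  have hz' : ∀ w : ℂ, dt (-w) w = 0 := fun w => by
    simp only [dt, Complex.neg_re, Complex.neg_im]
    ring
  have hself : u ≠ u' := by
    intro he
    have h1 := hF.opp
    have h2 := unit_sq (hc.pg.unit u hF.mem)
    rw [← he] at h1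
    have hr : u.1.re = 0 := by
      have := congrArg Complex.re h1
      simp only [Complex.neg_re] at this
      linarith
    have hi : u.1.im = 0 := by
      have := congrArg Complex.im h1
      simp only [Complex.neg_im] at this
      linarith
    rw [hr, hi] at h2
    norm_num at h2
  have hnb : ∀ x y : HP, 0 < dt x.1 y.1 → ¬ (u = x ∧ u' = y) ∧ ¬ (u = y ∧ u' = x) := by
    intro x y hp
    refine ⟨fun h => ?_, fun h => ?_⟩
    · have h1 := hF.opp
      rw [h.1, h.2] at h1
      rw [h1, hz] at hp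
      exact lt_irrefl _ hp
    · have h1 := hF.opp
      rw [h.1, h.2] at h1
      rw [h1, hz'] at hp
      exact lt_irrefl _ hp
  have nab := hnb a b hc.ab
  have nbc := hnb b c hc.bc
  have ncd := hnb c d hc.cd
  have nda := hnb d a hc.da
  have hm := hF.mem
  have hm' := hF.mem'
  simp only [Finset.mem_insert, Finset.mem_singleton] at hm hm'
  rcases hm with h | h | h | h <;> rcases hm' with h' | h' | h' | h'
  · exact absurd (h.trans h'.symm) hself
  · exact absurd ⟨h, h'⟩ nab.1
  · rw [h, h'] at hF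
    exact hCA (hsym hF)
  · exact absurd ⟨h, h'⟩ nda.2
  · exact absurd ⟨h, h'⟩ nab.2
  · exact absurd (h.trans h'.symm) hself
  · exact absurd ⟨h, h'⟩ nbc.1
  · rw [h, h'] at hF
    exact hBD hF
  · rw [h, h'] at hF
    exact hCA hF
  · exact absurd ⟨h, h'⟩ nbc.2
  · exact absurd (h.trans h'.symm) hself
  · exact absurd ⟨h, h'⟩ ncd.1
  · exact absurd ⟨h, h'⟩ nda.1
  · rw [h, h'] at hF
    exact hBD (hsym hF)
  · exact absurd ⟨h, h'⟩ ncd.2
  · exact absurd (h.trans h'.symm) hself

end Pool.Agent.QUD.H74
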